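import Pool.Agent.H547.P4.R2d2b11

set_option autoImplicit false

/-!
# `∑ C(2k,k)³/256^k ≡ (-5/p) ∑ a_k/54000^k (mod p³)` for `p ≡ 1 (mod 3)`

`z ↦ z²/(1-16z)³` sends `z = 1/256` to `1/54000`, and `z ↦ 1/(4096 z)` exchanges `1/256` and `1/16`, the point with `j = 0`.
A relation modulo `p³` with two derivative terms between the truncated series holds for pairs `z^p = z' (1 + p ν)` in an
arbitrary ring with `p³ = 0`; over the ring of Laurent series at the fixed point of `λ ↦ 1/(1-λ)` it gives the action of the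
automorphism of order three at `z = 1/16`, and this action forces both derivative terms to vanish there, hence at `1/256`.
-/

open Finset

namespace Pool.Agent.Results.MP_2d2b11_nt.DiscTwelveModPCubed

/-- `c_k = C(2k,k)³` -/
def c (k : ℕ) : ℕ := (2 * k).choose k ^ 3

/-- `a_k = C(2k,k) C(3k,k) C(6k,3k)` -/
def a (k : ℕ) : ℕ := (2 * k).choose k * (3 * k).choose k * (6 * k).choose (3 * k)

/-- `S(p) = ∑_{0 ≤ k ≤ (p-1)/2} c_k 256^{-k}` -/
def S (p : ℕ) : ℚ := ∑ k ∈ range ((p - 1) / 2 + 1), (c k : ℚ) / 256 ^ k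

/-- `T(p) = ∑_{0 ≤ k ≤ p-1} a_k 54000^{-k}` -/
def T (p : ℕ) : ℚ := ∑ k ∈ range p, (a k : ℚ) / 54000 ^ k

/-- congruence modulo `p³`: `x - y = p³ u` with `u` rational, `p` not dividing the denominator of `u` -/
def Cong (p : ℕ) (x y : ℚ) : Prop := ∃ u : ℚ, ¬ p ∣ u.den ∧ x - y = (p : ℚ) ^ 3 * u

theorem result (p : ℕ) [Fact p.Prime] (h : p % 3 = 1) : Cong p (S p) ((legendreSym p (-5) : ℚ) * T p) := by
  have e1 : S p = Pool.Agent.H547.P4.Sb 256 p := by
    unfold S Pool.Agent.H547.P4.Sb c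
    push_cast
    rfl
  have e2 : T p = Pool.Agent.H547.P4.R2d2b11.Tm 54000 p := by
    unfold T Pool.Agent.H547.P4.R2d2b11.Tm
    refine sum_congr rfl fun k _ => ?_
    unfold a
    push_cast
    ring
  rw [e1, e2]
  exact Pool.Agent.H547.P4.R2d2b11.main p h

end Pool.Agent.Results.MP_2d2b11_nt.DiscTwelveModPCubed
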